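import Pool.Agent.Run7.h385.PT.Stm

/-! # Project PT, piece CT: second moment of `psi` in one class modulo `W` -/
set_option autoImplicit false

namespace Pool.Agent.Run7.h544.PT

open Finset hiding box
open Pool.Agent.H373R2.T7
open Pool.Agent.H807R2.Dav
open Pool.Agent.Run7.h385.PO
open Pool.Agent.Run7.h385.PQ
open Pool.Agent.Run7.h385.PT

/-- abstract second moment -/
lemma sec_mom {T : Type} (bx : Finset T) (G : Finset ℕ) (x : ℕ → T → ℝ) (a : ℕ → ℝ) (good : ℕ → ℕ → Prop)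
    [∀ n n', Decidable (good n n')] (P r η A K Z : ℝ) (hA : 0 ≤ A) (hη : 0 ≤ η) (hP : 0 ≤ P) (hr : 0 ≤ r) (hZ : 0 ≤ Z)
    (hx : ∀ n t, 0 ≤ x n t ∧ x n t ≤ 1) (ha : ∀ n ∈ G, A ≤ a n ∧ a n ≤ A * (1 + η))
    (h1 : ∀ n ∈ G, (1 - η) * (r * P) ≤ ∑ t ∈ bx, x n t ∧ ∑ t ∈ bx, x n t ≤ (1 + η) * (r * P))
    (h2 : ∀ n ∈ G, ∀ n' ∈ G, good n n' → ∑ t ∈ bx, x n t * x n' t ≤ (1 + η) * (r ^ 2 * P))
    (hK : ∀ n ∈ G, (((G.filter (fun n' => ¬ good n n')).card : ℕ) : ℝ) ≤ K) :
    ∑ t ∈ bx, (∑ n ∈ G, x n t * a n - Z) ^ 2 ≤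
      P * ((1 + η) ^ 3 * ((G.card * (A * r)) ^ 2 + K * A * (G.card * (A * r))) -
        2 * Z * ((1 - η) * (G.card * (A * r)))) + (bx.card : ℝ) * Z ^ 2 := by
  have ha0 : ∀ n ∈ G, 0 ≤ a n := fun n hn => hA.trans (ha n hn).1
  have e1 : ∑ t ∈ bx, (∑ n ∈ G, x n t * a n - Z) ^ 2 =
      ∑ n ∈ G, ∑ n' ∈ G, a n * a n' * ∑ t ∈ bx, x n t * x n' t -
        2 * Z * ∑ n ∈ G, a n * ∑ t ∈ bx, x n t + (bx.card : ℝ) * Z ^ 2 := by
    have e2 : ∀ t ∈ bx, (∑ n ∈ G, x n t * a n - Z) ^ 2 =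
        ∑ n ∈ G, ∑ n' ∈ G, a n * a n' * (x n t * x n' t) - 2 * Z * ∑ n ∈ G, a n * x n t + Z ^ 2 := by
      intro t _
      have e3 : (∑ n ∈ G, x n t * a n) ^ 2 = ∑ n ∈ G, ∑ n' ∈ G, a n * a n' * (x n t * x n' t) := by
        rw [sq, sum_mul_sum]
        apply sum_congr rfl; intro n _
        apply sum_congr rfl; intro n' _
        ring
      have e4 : ∑ n ∈ G, a n * x n t = ∑ n ∈ G, x n t * a n := by
        apply sum_congr rfl; intro n _; ring
      rw [← e3, e4]; ring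
    rw [sum_congr rfl e2, sum_add_distrib, sum_sub_distrib, sum_const, nsmul_eq_mul]
    congr 2
    · rw [sum_comm]
      apply sum_congr rfl; intro n _
      rw [sum_comm]
      apply sum_congr rfl; intro n' _
      rw [mul_sum]
    · rw [← mul_sum]
      congr 1
      rw [sum_comm]
      apply sum_congr rfl; intro n _
      rw [mul_sum]
  rw [e1]
  have hM : A * (1 + η) * (A * (1 + η)) = A ^ 2 * (1 + η) ^ 2 := by ring
  -- the double sum
  have hd : ∀ n ∈ G, ∑ n' ∈ G, a n * a n' * ∑ t ∈ bx, x n t * x n' t ≤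
      A ^ 2 * (1 + η) ^ 2 * ((1 + η) * (r ^ 2 * P)) * G.card + A ^ 2 * (1 + η) ^ 2 * ((1 + η) * (r * P)) * K := by
    intro n hn
    have h3 : ∀ n' ∈ G, a n * a n' * ∑ t ∈ bx, x n t * x n' t ≤
        A ^ 2 * (1 + η) ^ 2 * ((1 + η) * (r ^ 2 * P)) +
          (if ¬ good n n' then A ^ 2 * (1 + η) ^ 2 * ((1 + η) * (r * P)) else 0) := by
      intro n' hn'
      have h4 : a n * a n' ≤ A ^ 2 * (1 + η) ^ 2 := by
        rw [← hM]
        exact mul_le_mul (ha n hn).2 (ha n' hn').2 (ha0 n' hn') (by positivity)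
      have h5 : 0 ≤ a n * a n' := mul_nonneg (ha0 n hn) (ha0 n' hn')
      have h6 : 0 ≤ ∑ t ∈ bx, x n t * x n' t := sum_nonneg fun t _ => mul_nonneg (hx n t).1 (hx n' t).1
      by_cases hg : good n n'
      · rw [if_neg (not_not.2 hg), add_zero]
        exact mul_le_mul h4 (h2 n hn n' hn' hg) h6 (by positivity)
      · rw [if_pos hg]
        have h7 : ∑ t ∈ bx, x n t * x n' t ≤ (1 + η) * (r * P) := by
          refine le_trans (sum_le_sum fun t _ => ?_) (h1 n hn).2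
          have h8 := hx n t
          have h9 := hx n' t
          nlinarith
        have h8 : a n * a n' * ∑ t ∈ bx, x n t * x n' t ≤ A ^ 2 * (1 + η) ^ 2 * ((1 + η) * (r * P)) :=
          mul_le_mul h4 h7 h6 (by positivity)
        have h9 : 0 ≤ A ^ 2 * (1 + η) ^ 2 * ((1 + η) * (r ^ 2 * P)) := by positivity
        linarith
    refine (sum_le_sum h3).trans ?_
    rw [sum_add_distrib, sum_const, nsmul_eq_mul, ← sum_filter, sum_const, nsmul_eq_mul]
    have h4 := hK n hn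
    have h5 : 0 ≤ A ^ 2 * (1 + η) ^ 2 * ((1 + η) * (r * P)) := by positivity
    have h6 := mul_le_mul_of_nonneg_right h4 h5
    linarith
  have hd2 := sum_le_sum hd
  rw [sum_const, nsmul_eq_mul] at hd2
  have hs : ∑ n ∈ G, a n * ∑ t ∈ bx, x n t ≥ G.card * (A * ((1 - η) * (r * P))) := by
    have h3 : ∀ n ∈ G, A * ((1 - η) * (r * P)) ≤ a n * ∑ t ∈ bx, x n t := by
      intro n hn
      have h4 : 0 ≤ ∑ t ∈ bx, x n t := sum_nonneg fun t _ => (hx n t).1
      calc A * ((1 - η) * (r * P)) ≤ A * ∑ t ∈ bx, x n t := mul_le_mul_of_nonneg_left (h1 n hn).1 hA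
        _ ≤ a n * ∑ t ∈ bx, x n t := mul_le_mul_of_nonneg_right (ha n hn).1 h4
    have h4 := sum_le_sum h3
    rw [sum_const, nsmul_eq_mul] at h4
    exact h4
  have hs2 := mul_le_mul_of_nonneg_left hs.le (show 0 ≤ 2 * Z by positivity)
  have e5 : (G.card : ℝ) * (A ^ 2 * (1 + η) ^ 2 * ((1 + η) * (r ^ 2 * P)) * G.card +
      A ^ 2 * (1 + η) ^ 2 * ((1 + η) * (r * P)) * K) =
      P * ((1 + η) ^ 3 * ((G.card * (A * r)) ^ 2 + K * A * (G.card * (A * r)))) := by ring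
  have e6 : 2 * Z * ((G.card : ℝ) * (A * ((1 - η) * (r * P)))) = P * (2 * Z * ((1 - η) * (G.card * (A * r)))) := by ring
  rw [e5] at hd2
  rw [e6] at hs2
  rw [mul_sub]
  linarith

/-- the numerical conclusion -/
lemma fin_num (η Q Z KA : ℝ) (hη : 0 ≤ η) (hη1 : η ≤ 1) (hZ : 0 ≤ Z) (hQ : |Q - Z| ≤ η * Z) (hK : KA ≤ η * Z) :
    (1 + η) ^ 3 * (Q ^ 2 + KA * Q) - 2 * Z * ((1 - η) * Q) + Z ^ 2 ≤ 60 * η * Z ^ 2 := by
  rw [abs_le] at hQ
  have hQ0 : 0 ≤ Q := by nlinarith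
  have hQ1 : Q ≤ (1 + η) * Z := by linarith
  have h1 : Q ^ 2 + KA * Q ≤ ((1 + η) * Z) ^ 2 + η * Z * ((1 + η) * Z) := by
    have h2 : Q ^ 2 ≤ ((1 + η) * Z) ^ 2 := pow_le_pow_left₀ hQ0 hQ1 2
    have h3 : KA * Q ≤ η * Z * ((1 + η) * Z) := mul_le_mul hK hQ1 hQ0 (by positivity)
    linarith
  have h2 : (1 + η) ^ 3 * (Q ^ 2 + KA * Q) ≤ (1 + η) ^ 3 * (((1 + η) * Z) ^ 2 + η * Z * ((1 + η) * Z)) :=
    mul_le_mul_of_nonneg_left h1 (by positivity)
  have h3 : (1 - η) * ((1 - η) * Z) ≤ (1 - η) * Q := mul_le_mul_of_nonneg_left (by linarith) (by linarith)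
  have h4 := mul_le_mul_of_nonneg_left h3 (show 0 ≤ 2 * Z by positivity)
  have e1 : (1 + η) ^ 3 * (((1 + η) * Z) ^ 2 + η * Z * ((1 + η) * Z)) = Z ^ 2 * ((1 + η) ^ 4 * (1 + 2 * η)) := by ring
  have e2 : 2 * Z * ((1 - η) * ((1 - η) * Z)) = Z ^ 2 * (2 * (1 - η) ^ 2) := by ring
  have h5 : (1 + η) ^ 4 * (1 + 2 * η) - 2 * (1 - η) ^ 2 + 1 ≤ 60 * η := by
    have hp2 : η ^ 2 ≤ η := by nlinarith
    have hp3 : η ^ 3 ≤ η := by nlinarith [mul_nonneg hη hη]
    have hp4 : η ^ 4 ≤ η := by nlinarith [mul_nonneg hη hη, mul_nonneg (mul_nonneg hη hη) hη]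
    have hp5 : η ^ 5 ≤ η := by nlinarith [mul_nonneg hη hη, mul_nonneg (mul_nonneg hη hη) hη, mul_nonneg (mul_nonneg (mul_nonneg hη hη) hη) hη]
    nlinarith
  have h6 := mul_le_mul_of_nonneg_left h5 (sq_nonneg Z)
  rw [e1] at h2
  rw [e2] at h4
  nlinarith

lemma pc_desc {g k d : ℕ} (W : ℕ) (u : Fin g → ℕ → ℤ) (t : Fin g → Fin d → ℤ) (h : Fin k → ℕ) (hh : Function.Injective h)
    (n : ℕ) : (((pc W u t (univ.image (fun i => n + h i))).descFactorial k : ℕ) : ℝ) =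
      (k.factorial : ℝ) * (if allp (fun l x => u l x + ev W (t l) x) h n then 1 else 0) := by
  have hinj : Function.Injective (fun i => n + h i) := fun i j hij => hh (Nat.add_left_cancel hij)
  have hc : (univ.image (fun i => n + h i)).card = k := by
    rw [card_image_of_injective _ hinj, card_univ, Fintype.card_fin]
  unfold pc
  by_cases ha : allp (fun l x => u l x + ev W (t l) x) h n
  · rw [if_pos ha, mul_one]
    have h1 : (univ.image (fun i => n + h i)).filter (fun n => ∀ l, (u l n + ev W (t l) n).natAbs.Prime) =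
        univ.image (fun i => n + h i) := by
      apply filter_true_of_mem
      intro x hx
      obtain ⟨i, _, rfl⟩ := mem_image.1 hx
      intro l
      exact ha l i
    rw [h1, hc, Nat.descFactorial_self]
  · rw [if_neg ha, mul_zero]
    have h1 : ((univ.image (fun i => n + h i)).filter (fun n => ∀ l, (u l n + ev W (t l) n).natAbs.Prime)).card < k := by
      refine lt_of_lt_of_eq (card_lt_card ?_) hc
      rw [ssubset_iff_of_subset (filter_subset _ _)]
      unfold allp at ha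
      push Not at ha
      obtain ⟨l, i, hli⟩ := ha
      refine ⟨n + h i, mem_image_of_mem _ (mem_univ i), ?_⟩
      rw [mem_filter]
      rintro ⟨_, h2⟩
      exact hli (h2 l)
    rw [Nat.descFactorial_eq_zero_iff_lt.2 h1, Nat.cast_zero]

/-- the system of the shifted functions -/
def shf {g k : ℕ} (u : Fin g → ℕ → ℤ) (h : Fin k → ℕ) (j : Fin (g * k)) (x : ℕ) : ℤ :=
  u (finProdFinEquiv.symm j).1 (x + h (finProdFinEquiv.symm j).2)

lemma shf_ex {g k : ℕ} (P : Fin g → Fin k → Prop) :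
    (∃ j : Fin (g * k), P (finProdFinEquiv.symm j).1 (finProdFinEquiv.symm j).2) ↔ ∃ l i, P l i := by
  constructor
  · rintro ⟨j, hj⟩; exact ⟨_, _, hj⟩
  · rintro ⟨l, i, hli⟩
    refine ⟨finProdFinEquiv (l, i), ?_⟩
    rw [Equiv.symm_apply_apply]
    exact hli

lemma omega_shf {g k : ℕ} (u : Fin g → ℕ → ℤ) (h : Fin k → ℕ) (p : ℕ) : omega (shf u h) p = omh u h p := by
  unfold omega omh shf
  congr 1
  apply filter_congr
  intro n _
  exact shf_ex (fun l i => (p : ℤ) ∣ u l (n + h i))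

lemma sing_shf {g k : ℕ} (u : Fin g → ℕ → ℤ) (h : Fin k → ℕ) (w : ℕ) : sing (shf u h) w = singh u h w := by
  unfold sing singh
  apply prod_congr rfl
  intro p _
  rw [omega_shf]

lemma shf_per {g k : ℕ} (u : Fin g → ℕ → ℤ) (h : Fin k → ℕ) (hu : ∀ l, ∀ p n : ℕ, (p : ℤ) ∣ u l (n + p) - u l n)
    (j : Fin (g * k)) (p n : ℕ) : (p : ℤ) ∣ shf u h j (n + p) - shf u h j n := by
  unfold shf
  have e : n + p + h (finProdFinEquiv.symm j).2 = n + h (finProdFinEquiv.symm j).2 + p := by ring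
  rw [e]
  exact hu _ _ _

lemma card_bad {k : ℕ} (h : Fin k → ℕ) (G : Finset ℕ) (n : ℕ) :
    (((G.filter (fun n' => ¬ ∀ i i', n + h i ≠ n' + h i')).card : ℕ) : ℝ) ≤ (k : ℝ) ^ 2 := by
  have h1 : G.filter (fun n' => ¬ ∀ i i', n + h i ≠ n' + h i') ⊆
      (univ ×ˢ univ : Finset (Fin k × Fin k)).image (fun q => n + h q.1 - h q.2) := by
    intro n' hn'
    obtain ⟨_, h2⟩ := mem_filter.1 hn'
    push Not at h2
    obtain ⟨i, i', h3⟩ := h2
    rw [mem_image]
    refine ⟨(i, i'), by simp, ?_⟩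
    simp only
    omega
  have h2 := (card_le_card h1).trans card_image_le
  rw [card_product, card_univ, Fintype.card_fin] at h2
  have h3 : (((G.filter (fun n' => ¬ ∀ i i', n + h i ≠ n' + h i')).card : ℕ) : ℝ) ≤ ((k * k : ℕ) : ℝ) := by exact_mod_cast h2
  push_cast at h3
  nlinarith

lemma card_bx {g d : ℕ} (Y : Fin g → Fin d → ℕ) :
    ((Fintype.piFinset (fun l => box (Y l))).card : ℝ) = ∏ l, ∏ j, (Y l j : ℝ) := by
  rw [Fintype.card_piFinset]
  unfold box
  simp [Fintype.card_piFinset, Int.card_Ico]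

lemma aux1 (a L : ℝ) (ha : 1 ≤ a) (hL : 2 ≤ L) : 2 * a ≤ a * L := by nlinarith

lemma aux2 (m n a b : ℝ) (hm : 0 ≤ m) (hn : n ≤ m + a) (ha : 1 ≤ a) (hb : 2 * a ≤ b) : n + 1 ≤ (m + 1) * b := by nlinarith

lemma aux3 (x : ℝ) (hx : 1 ≤ x) : √x ≤ x := by
  rw [Real.sqrt_le_left (by positivity)]; nlinarith

lemma aux4 (M W Z L : ℝ) (q : ℕ) (hM0 : 0 ≤ M) (hL0 : 0 ≤ L) (hMZ : M ≤ W * Z) (hW : W ^ 2 ≤ L) :
    (M * (2 * L) ^ q) ^ 2 ≤ 4 ^ q * L ^ (2 * q + 1) * Z ^ 2 := by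
  calc (M * (2 * L) ^ q) ^ 2 ≤ ((W * Z) * (2 * L) ^ q) ^ 2 := by gcongr
    _ = (W ^ 2 * L ^ (2 * q)) * ((2 ^ 2) ^ q * Z ^ 2) := by
        rw [mul_pow (W * Z), mul_pow W Z, ← pow_mul (2 * L), mul_pow 2 L, ← pow_mul 2 2 q, mul_comm q 2]; ring
    _ ≤ (L * L ^ (2 * q)) * ((2 ^ 2) ^ q * Z ^ 2) := by gcongr
    _ = 4 ^ q * L ^ (2 * q + 1) * Z ^ 2 := by norm_num; ring

set_option maxHeartbeats 4000000 in
theorem t_CT (hJM : S_JM) (hTI : S_TINY2) (hTC : S_TCOUNT) (hWS : S_WSMALL) : S_CT := by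
  intro d g k C hd hg hk hkd
  obtain ⟨B1, hB1⟩ := hJM d g k k (C + 1) hd (by omega)
  obtain ⟨B2, hB2⟩ := hJM d g k 0 (C + 1) hd (by omega)
  refine ⟨B1 + B2 + (C + 1) * (d - 1), ?_⟩
  intro ε hε
  set q := g * k with hq
  have hq1 : 1 ≤ q := Nat.mul_pos hg hk
  set η : ℝ := min 1 (ε / 120) with hη
  have hη0 : 0 < η := lt_min one_pos (by positivity)
  have hη1 : η ≤ 1 := min_le_left _ _
  have hη2 : 60 * η ≤ ε / 2 := by
    have : η ≤ ε / 120 := min_le_right _ _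
    linarith
  set η0 : ℝ := η / 2 ^ q with hη0d
  have hη0p : 0 < η0 := by positivity
  have h2q : (1 : ℝ) ≤ 2 ^ q := one_le_pow₀ (by norm_num)
  have hη01 : η0 ≤ 1 := by
    rw [hη0d, div_le_one (by positivity)]; linarith
  have hη0q : (1 + η0) ^ q ≤ 1 + η := by
    refine (pow_lin η0 hη0p.le hη01 q).trans (le_of_eq ?_)
    rw [hη0d]; field_simp
  obtain ⟨n1, h1⟩ := hB1 η hη0
  obtain ⟨n1', h1'⟩ := hB2 η hη0
  obtain ⟨n2, h2⟩ := hWS.2
  obtain ⟨n3, h3⟩ := ev_L' (max 2 (((k : ℝ) ^ 2 * 2 ^ q / η) ^ 2))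
  obtain ⟨n4, h4⟩ := ev_log' (2 * C + 2 * q + 2) (12 * k * g * 4 ^ q / ε)
  have hlim : Filter.Tendsto (fun N : ℕ => Real.log (N : ℝ)) Filter.atTop Filter.atTop :=
    Real.tendsto_log_atTop.comp (tendsto_natCast_atTop_atTop (R := ℝ))
  have hev2 : ∀ᶠ N : ℕ in Filter.atTop, ((d : ℝ) * (C + 1) + 1) * Real.log (Real.log N) ≤ η0 * Real.log N := by
    have h5 := (Real.isLittleO_log_id_atTop).bound (show (0 : ℝ) < η0 / (d * (C + 1) + 1) by positivity)
    have h6 := hlim.eventually h5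
    filter_upwards [h6, hlim.eventually_ge_atTop 1] with N h7 h8
    rw [Real.norm_of_nonneg (Real.log_nonneg h8), id, Real.norm_of_nonneg (by linarith), div_mul_eq_mul_div,
      le_div_iff₀ (by positivity)] at h7
    linarith
  obtain ⟨n6, h6⟩ := Filter.eventually_atTop.1 hev2
  refine ⟨max (max (max n1 n1') (max n2 n3)) (max (max n4 n6) 2), ?_⟩
  intro X hX m hmX M hM hMC h hh hhC u hper hub hs Y hY
  have hX1 : n1 ≤ X := le_trans (le_trans (le_trans (le_max_left _ _) (le_max_left _ _)) (le_max_left _ _)) hX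
  have hX1' : n1' ≤ X := le_trans (le_trans (le_trans (le_max_right _ _) (le_max_left _ _)) (le_max_left _ _)) hX
  have hX2 : n2 ≤ X := le_trans (le_trans (le_trans (le_max_left _ _) (le_max_right _ _)) (le_max_left _ _)) hX
  have hX3 : n3 ≤ X := le_trans (le_trans (le_trans (le_max_right _ _) (le_max_right _ _)) (le_max_left _ _)) hX
  have hX4 : n4 ≤ X := le_trans (le_trans (le_trans (le_max_left _ _) (le_max_left _ _)) (le_max_right _ _)) hX
  have hX6' : n6 ≤ X := le_trans (le_trans (le_trans (le_max_right _ _) (le_max_left _ _)) (le_max_right _ _)) hX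
  have hX6 : 2 ≤ X := le_trans (le_trans (le_max_right _ _) (le_max_right _ _)) hX
  have a1 := h1 X hX1
  have a1' := h1' X hX1'
  obtain ⟨hWsq, hW1, hVinv⟩ := h2 X hX2
  have a3 := h3 X hX3
  have a4 := h4 X hX4
  have a6 := h6 X hX6'
  clear h1 h1' h2 h3 h4 h6 hev2 hlim
  set L := Real.log X with hL
  have hL2 : 2 ≤ L := (le_max_left _ _).trans a3
  have hL3 : ((k : ℝ) ^ 2 * 2 ^ q / η) ^ 2 ≤ L := (le_max_right _ _).trans a3
  have hL0 : 0 < L := by linarith
  have hL1 : 1 ≤ L := by linarith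
  have hXr : (2 : ℝ) ≤ X := by exact_mod_cast hX6
  have hX0 : (0 : ℝ) < X := by linarith
  set w := ww X with hw
  set W := WW X with hW
  have hWr1 : (1 : ℝ) ≤ W := by exact_mod_cast hW1
  have hWL : (W : ℝ) ≤ √L := by
    rw [← Real.sqrt_sq (show (0 : ℝ) ≤ W by positivity)]
    exact Real.sqrt_le_sqrt hWsq
  have hsL : √L * √L = L := Real.mul_self_sqrt hL0.le
  have hVpos := Vz_pos w
  set V := Vz w with hV
  have hlogL : 0 ≤ Real.log L := Real.log_nonneg hL1
  have hm0 : (0 : ℝ) ≤ m := Nat.cast_nonneg _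
  -- the size of the arguments
  have hLe : ∀ e : ℕ, 1 ≤ L ^ e := fun e => one_le_pow₀ hL1
  have hLC1 : 2 * L ^ C ≤ L ^ (C + 1) := by
    rw [pow_succ]; exact aux1 _ _ (hLe C) hL2
  have hLCC : L ^ C ≤ L ^ (C + 1) := pow_le_pow_right₀ hL1 (by omega)
  have hmXB : ∀ e : ℕ, e ≤ B1 + B2 + (C + 1) * (d - 1) → ((m : ℝ) + 1) ^ (5 * (d - 1)) * L ^ e ≤ X := by
    intro e he
    refine le_trans ?_ hmX
    apply mul_le_mul_of_nonneg_left (pow_le_pow_right₀ hL1 he) (by positivity)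
  -- the logarithms
  set lm := lg X d m with hlm
  have hlmL : L ≤ lm := lg_ge X d m (by omega)
  have hlm0 : 0 < lm := by linarith
  have hlg : ∀ n : ℕ, m < n → n ≤ m + M → lm ≤ lg X d n ∧ lg X d n ≤ lm * (1 + η0) ∧ lg X d n ≤ 2 * L := by
    intro n hn1 hn2
    have hn1' : (m : ℝ) ≤ n := by exact_mod_cast hn1.le
    have hn2' : (n : ℝ) ≤ m + L ^ C := by
      have : (n : ℝ) ≤ m + M := by exact_mod_cast hn2
      linarith
    have hn0 : (0 : ℝ) ≤ n := Nat.cast_nonneg _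
    have h8 : (n : ℝ) + 1 ≤ (m + 1) * L ^ (C + 1) := by
      exact aux2 _ _ _ _ hm0 hn2' (hLe C) hLC1
    have h9 := Real.log_le_log (by positivity) h8
    rw [Real.log_mul (by positivity) (by positivity), Real.log_pow] at h9
    refine ⟨?_, ?_, ?_⟩
    · rw [hlm]
      unfold lg
      apply Real.log_le_log (by positivity)
      gcongr
    · have h7 : lg X d n ≤ lm + d * ((C + 1) * Real.log L) := by
        rw [hlm]
        unfold lg
        rw [Real.log_mul hX0.ne' (by positivity), Real.log_mul hX0.ne' (by positivity), Real.log_pow, Real.log_pow]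
        have h10 : ((d - 1 : ℕ) : ℝ) ≤ d := by exact_mod_cast Nat.sub_le d 1
        have h11 : (0 : ℝ) ≤ ((d - 1 : ℕ) : ℝ) := Nat.cast_nonneg _
        have h13 : ((d - 1 : ℕ) : ℝ) * Real.log ((n : ℝ) + 1) ≤
            ((d - 1 : ℕ) : ℝ) * (Real.log ((m : ℝ) + 1) + ((C + 1 : ℕ) : ℝ) * Real.log L) := mul_le_mul_of_nonneg_left h9 h11
        push_cast at h13
        have h14 : ((d - 1 : ℕ) : ℝ) * (((C : ℝ) + 1) * Real.log L) ≤ d * (((C : ℝ) + 1) * Real.log L) := by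
          apply mul_le_mul_of_nonneg_right h10
          positivity
        linarith
      have h8 : (d : ℝ) * ((C + 1) * Real.log L) ≤ η0 * lm := by
        calc (d : ℝ) * ((C + 1) * Real.log L) ≤ ((d : ℝ) * (C + 1) + 1) * Real.log L := by
                have e : ((d : ℝ) * (C + 1) + 1) * Real.log L = (d : ℝ) * ((C + 1) * Real.log L) + Real.log L := by ring
                rw [e]; linarith
          _ ≤ η0 * L := a6
          _ ≤ η0 * lm := mul_le_mul_of_nonneg_left hlmL hη0p.le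
      linarith
    · unfold lg
      rw [Real.log_mul hX0.ne' (by positivity)]
      have h7 : ((n : ℝ) + 1) ^ (d - 1) ≤ X := by
        calc ((n : ℝ) + 1) ^ (d - 1) ≤ ((m + 1) * L ^ (C + 1)) ^ (d - 1) := pow_le_pow_left₀ (by positivity) h8 _
          _ = ((m : ℝ) + 1) ^ (d - 1) * L ^ ((C + 1) * (d - 1)) := by rw [mul_pow, ← pow_mul]
          _ ≤ ((m : ℝ) + 1) ^ (5 * (d - 1)) * L ^ ((C + 1) * (d - 1)) := by
              apply mul_le_mul_of_nonneg_right _ (by positivity)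
              apply pow_le_pow_right₀ (by linarith) (by omega)
          _ ≤ X := hmXB _ (by omega)
      have h8 := Real.log_le_log (by positivity) h7
      linarith
  have hlm2 : lm ≤ 2 * L := by
    have hM1 : 1 ≤ M := by
      have h7 : (1 : ℝ) ≤ M := (hLe (q + 1)).trans hM
      exact_mod_cast h7
    obtain ⟨h7, _, h8⟩ := hlg (m + 1) (by omega) (by omega)
    linarith
  -- the box
  set P : ℝ := ∏ l, ∏ j, (Y l j : ℝ) with hP
  have hP0 : 0 ≤ P := by positivity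
  set bx := Fintype.piFinset (fun l => box (Y l)) with hbx
  have hbxc : (bx.card : ℝ) = P := card_bx Y
  have hYC : ∀ l j, (X : ℝ) / L ^ (C + 1) ≤ Y l j ∧ (Y l j : ℝ) ≤ X := by
    intro l j
    refine ⟨le_trans ?_ (hY l j).1, (hY l j).2⟩
    apply div_le_div_of_nonneg_left hX0.le (by positivity) hLCC
  -- the constant
  set σ := singh u h w with hσ
  have hs' : 0 < sing (shf u h) w := by rw [sing_shf]; exact hs
  have hσW : 1 / (W : ℝ) ≤ σ := by
    have h7 := sing_ge (shf u h) w hs'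
    rw [sing_shf] at h7
    exact h7
  have hWσ : 1 ≤ W * σ := by
    rw [div_le_iff₀ (by positivity)] at hσW
    linarith
  set Z := σ * M with hZ
  have hM0 : (0 : ℝ) ≤ M := Nat.cast_nonneg _
  have hZ0 : 0 ≤ Z := by positivity
  have hMZ : (M : ℝ) ≤ W * Z := by
    have h7 := mul_le_mul_of_nonneg_right hWσ hM0
    rw [hZ]; linarith
  have hWZ : L ^ (q + 1) ≤ W * Z := hM.trans hMZ
  -- the good arguments
  set G := (Ioc m (m + M)).filter (fun n => ∀ j : Fin (g * k), ∀ p ∈ pz w, ¬ (p : ℤ) ∣ shf u h j n) with hG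
  have hGc : |(G.card : ℝ) - Z * V ^ q| ≤ W := by
    have h7 := hTC (g * k) (shf u h) w (fun j p _ n => shf_per u h hper j p n) m M
    rw [sing_mul, sing_shf] at h7
    have e : (M : ℝ) * (singh u h w * Vz w ^ (g * k)) = Z * V ^ q := by rw [hZ]; ring
    rw [e] at h7
    exact h7
  set R := rho2 X d m with hR
  have hRdef : R = V⁻¹ / lm := rfl
  have hR0 : 0 < R := by rw [hRdef]; positivity
  set r := R ^ q with hr
  have hr0 : 0 < r := by positivity
  set A := lm ^ q with hA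
  have hA0 : 0 < A := by positivity
  have hAr : A * r = (V⁻¹) ^ q := by
    rw [hA, hr, hRdef, ← mul_pow]
    congr 1
    field_simp
  have hlogη : Real.log L ≤ η * L := by
    have h7 : Real.log L ≤ η0 * L := by
      have h8 : 0 ≤ (d : ℝ) * (C + 1) * Real.log L := by positivity
      linarith
    have h8 : η0 ≤ η := by
      rw [hη0d]; exact div_le_self hη0.le h2q
    exact h7.trans (mul_le_mul_of_nonneg_right h8 hL0.le)
  have hVq : (V⁻¹) ^ q ≤ η * L ^ q := by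
    calc (V⁻¹) ^ q ≤ (Real.log L) ^ q := pow_le_pow_left₀ (by positivity) hVinv q
      _ ≤ (η * L) ^ q := pow_le_pow_left₀ hlogL hlogη q
      _ = η ^ q * L ^ q := mul_pow _ _ _
      _ ≤ η * L ^ q := by
          apply mul_le_mul_of_nonneg_right _ (by positivity)
          calc η ^ q ≤ η ^ 1 := pow_le_pow_of_le_one hη0.le hη1 hq1
            _ = η := pow_one η
  have hQZ : |(G.card : ℝ) * (A * r) - Z| ≤ η * Z := by
    rw [hAr]
    have e : (G.card : ℝ) * (V⁻¹) ^ q - Z = ((G.card : ℝ) - Z * V ^ q) * (V⁻¹) ^ q := by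
      rw [sub_mul, mul_assoc, ← mul_pow, mul_inv_cancel₀ hVpos.ne', one_pow, mul_one]
    rw [e, abs_mul, abs_of_nonneg (show 0 ≤ (V⁻¹) ^ q by positivity)]
    have h7 : |(G.card : ℝ) - Z * V ^ q| * (V⁻¹) ^ q ≤ W * (η * L ^ q) :=
      mul_le_mul hGc hVq (by positivity) (by positivity)
    refine h7.trans ?_
    have h8 : (W : ℝ) * (W * (η * L ^ q)) ≤ W * (η * Z) := by
      calc (W : ℝ) * (W * (η * L ^ q)) = η * (L ^ q * W ^ 2) := by ring
        _ ≤ η * (L ^ q * L) := by gcongr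
        _ = η * L ^ (q + 1) := by rw [pow_succ]
        _ ≤ η * (W * Z) := mul_le_mul_of_nonneg_left hWZ hη0.le
        _ = W * (η * Z) := by ring
    exact le_of_mul_le_mul_left h8 (by linarith)
  have hKA : (k : ℝ) ^ 2 * A ≤ η * Z := by
    have h7 : (k : ℝ) ^ 2 * 2 ^ q ≤ η * √L := by
      have h8 : (k : ℝ) ^ 2 * 2 ^ q / η ≤ √L := Real.le_sqrt_of_sq_le hL3
      rw [div_le_iff₀ hη0] at h8
      linarith
    have h8 : (W : ℝ) * ((k : ℝ) ^ 2 * A) ≤ W * (η * Z) := by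
      calc (W : ℝ) * ((k : ℝ) ^ 2 * A) ≤ √L * ((k : ℝ) ^ 2 * (2 * L) ^ q) := by
            rw [hA]; gcongr
        _ = √L * ((k : ℝ) ^ 2 * 2 ^ q) * L ^ q := by rw [mul_pow]; ring
        _ ≤ √L * (η * √L) * L ^ q := by gcongr
        _ = η * (L ^ q * (√L * √L)) := by ring
        _ = η * L ^ (q + 1) := by rw [hsL, pow_succ]
        _ ≤ η * (W * Z) := mul_le_mul_of_nonneg_left hWZ hη0.le
        _ = W * (η * Z) := by ring
    exact le_of_mul_le_mul_left h8 (by linarith)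
  -- the indicator functions
  set x : ℕ → (Fin g → Fin d → ℤ) → ℝ :=
    fun n t => if allp (fun l y => u l y + ev W (t l) y) h n then 1 else 0 with hx
  have hx01 : ∀ n t, 0 ≤ x n t ∧ x n t ≤ 1 := by
    intro n t; simp only [hx]; split_ifs <;> norm_num
  have hpsi : ∀ t : Fin g → Fin d → ℤ, psi X d (fun l n => u l n + ev W (t l) n) h m M =
      ∑ n ∈ Ioc m (m + M), x n t * lg X d n ^ q := by
    intro t
    unfold psi
    rw [sum_filter]
    apply sum_congr rfl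
    intro n _
    simp only [hx]
    split_ifs
    · rw [one_mul]
    · rw [zero_mul]
  have hmem : ∀ n ∈ G, m < n ∧ n ≤ m + M ∧ ∀ l i, ∀ p ∈ pz w, ¬ (p : ℤ) ∣ u l (n + h i) := by
    intro n hn
    obtain ⟨h7, h8⟩ := mem_filter.1 hn
    obtain ⟨h9, h10⟩ := mem_Ioc.1 h7
    refine ⟨h9, h10, fun l i p hp => ?_⟩
    have h11 := h8 (finProdFinEquiv (l, i)) p hp
    unfold shf at h11
    rw [Equiv.symm_apply_apply] at h11
    exact h11
  have hTn : ∀ n ∈ G, ∀ y ∈ univ.image (fun i => n + h i), m < y ∧ (y : ℝ) ≤ m + L ^ (C + 1) := by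
    intro n hn y hy
    obtain ⟨i, _, rfl⟩ := mem_image.1 hy
    obtain ⟨h7, h8, _⟩ := hmem n hn
    refine ⟨by omega, ?_⟩
    have h9 : (n : ℝ) ≤ m + M := by exact_mod_cast h8
    have h10 := hhC i
    push_cast
    linarith
  have hTu : ∀ n ∈ G, ∀ l, ∀ y ∈ univ.image (fun i => n + h i),
      |(u l y : ℝ)| ≤ X * ((m : ℝ) + 1) ^ (d - 1) * L ^ (C + 1) ∧ IsCoprime (u l y) (W : ℤ) := by
    intro n hn l y hy
    obtain ⟨i, _, rfl⟩ := mem_image.1 hy
    obtain ⟨h7, h8, h9⟩ := hmem n hn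
    refine ⟨(hub l i n h7 h8).trans ?_, cop_of _ (h9 l i)⟩
    apply mul_le_mul_of_nonneg_left hLCC (by positivity)
  have hTc : ∀ n : ℕ, (univ.image (fun i => n + h i)).card = k := by
    intro n
    rw [card_image_of_injective _ (fun i j hij => hh (Nat.add_left_cancel hij)), card_univ, Fintype.card_fin]
  have hkf : (0 : ℝ) < (k.factorial : ℝ) := by exact_mod_cast Nat.factorial_pos k
  have hE1 : ∀ n ∈ G, |∑ t ∈ bx, x n t - r * P| ≤ η * (r * P) := by
    intro n hn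
    have h7 := a1' m (hmXB B2 (by omega)) (univ.image (fun i => n + h i)) ∅ (disjoint_empty_right _) (hTn n hn)
      (by simp) u (fun l y hy => by
        rcases hy with hy | hy
        · exact hTu n hn l y hy
        · simp at hy) Y hYC
    simp only [pc_desc W u _ h hh n, Nat.descFactorial_zero, Nat.cast_one, mul_one, hTc, Nat.descFactorial_self,
      add_zero] at h7
    rw [← mul_sum] at h7
    have e1 : (k.factorial : ℝ) * ∑ t ∈ bx, x n t - P * (k.factorial : ℝ) * R ^ (g * k) =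
        (k.factorial : ℝ) * (∑ t ∈ bx, x n t - r * P) := by rw [hr, hq]; ring
    have e2 : η * (P * (k.factorial : ℝ) * R ^ (g * k)) = (k.factorial : ℝ) * (η * (r * P)) := by rw [hr, hq]; ring
    rw [e1, e2, abs_mul, abs_of_pos hkf] at h7
    exact le_of_mul_le_mul_left h7 hkf
  have hE2 : ∀ n ∈ G, ∀ n' ∈ G, (∀ i i', n + h i ≠ n' + h i') →
      ∑ t ∈ bx, x n t * x n' t ≤ (1 + η) * (r ^ 2 * P) := by
    intro n hn n' hn' hgd
    have hdis : Disjoint (univ.image (fun i => n + h i)) (univ.image (fun i => n' + h i)) := by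
      rw [disjoint_left]
      intro y hy hy'
      obtain ⟨i, _, h8⟩ := mem_image.1 hy
      obtain ⟨i', _, h9⟩ := mem_image.1 hy'
      exact hgd i i' (h8.trans h9.symm)
    have h7 := a1 m (hmXB B1 (by omega)) (univ.image (fun i => n + h i)) (univ.image (fun i => n' + h i)) hdis (hTn n hn)
      (hTn n' hn') u (fun l y hy => by
        rcases hy with hy | hy
        · exact hTu n hn l y hy
        · exact hTu n' hn' l y hy) Y hYC
    simp only [pc_desc W u _ h hh, hTc, Nat.descFactorial_self] at h7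
    have e0 : ∀ t ∈ bx, (k.factorial : ℝ) * (if allp (fun l y => u l y + ev W (t l) y) h n then (1 : ℝ) else 0) *
        ((k.factorial : ℝ) * (if allp (fun l y => u l y + ev W (t l) y) h n' then (1 : ℝ) else 0)) =
        (k.factorial : ℝ) ^ 2 * (x n t * x n' t) := by
      intro t _
      simp only [hx]
      ring
    rw [sum_congr rfl e0, ← mul_sum] at h7
    have e1 : (k.factorial : ℝ) ^ 2 * ∑ t ∈ bx, x n t * x n' t -
        P * ((k.factorial : ℝ) * (k.factorial : ℝ)) * R ^ (g * (k + k)) =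
        (k.factorial : ℝ) ^ 2 * (∑ t ∈ bx, x n t * x n' t - r ^ 2 * P) := by
      rw [hr, hq, ← pow_mul, mul_add, mul_two]; ring
    have e2 : η * (P * ((k.factorial : ℝ) * (k.factorial : ℝ)) * R ^ (g * (k + k))) =
        (k.factorial : ℝ) ^ 2 * (η * (r ^ 2 * P)) := by
      rw [hr, hq, ← pow_mul, mul_add, mul_two]; ring
    rw [e1, e2, abs_mul, abs_of_pos (by positivity)] at h7
    have h8 := le_of_mul_le_mul_left h7 (show 0 < (k.factorial : ℝ) ^ 2 by positivity)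
    have h9 := (abs_le.1 h8).2
    linarith
  -- the main term
  have hmain := sec_mom bx G x (fun n => lg X d n ^ q) (fun n n' => ∀ i i', n + h i ≠ n' + h i') P r η A ((k : ℝ) ^ 2) Z
    hA0.le hη0.le hP0 hr0.le hZ0 hx01
    (fun n hn => by
      obtain ⟨h7, h8, _⟩ := hmem n hn
      obtain ⟨h9, h10, _⟩ := hlg n h7 h8
      refine ⟨pow_le_pow_left₀ hlm0.le h9 q, ?_⟩
      calc lg X d n ^ q ≤ (lm * (1 + η0)) ^ q := pow_le_pow_left₀ (by linarith) h10 q
        _ = A * (1 + η0) ^ q := by rw [hA, mul_pow]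
        _ ≤ A * (1 + η) := mul_le_mul_of_nonneg_left hη0q hA0.le)
    (fun n hn => by
      have h7 := abs_le.1 (hE1 n hn)
      constructor <;> linarith [h7.1, h7.2])
    hE2 (fun n _ => card_bad h G n)
  have hmain2 : ∑ t ∈ bx, (∑ n ∈ G, x n t * lg X d n ^ q - Z) ^ 2 ≤ ε / 2 * Z ^ 2 * P := by
    have h7 := fin_num η (G.card * (A * r)) Z ((k : ℝ) ^ 2 * A) hη0.le hη1 hZ0 hQZ hKA
    rw [hbxc] at hmain
    have h8 := mul_le_mul_of_nonneg_left h7 hP0
    have h9 : 60 * η * (Z ^ 2 * P) ≤ ε / 2 * (Z ^ 2 * P) := mul_le_mul_of_nonneg_right hη2 (by positivity)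
    have e3 : P * ((1 + η) ^ 3 * ((G.card * (A * r)) ^ 2 + (k : ℝ) ^ 2 * A * (G.card * (A * r))) -
        2 * Z * ((1 - η) * (G.card * (A * r)))) + P * Z ^ 2 =
        P * ((1 + η) ^ 3 * ((G.card * (A * r)) ^ 2 + (k : ℝ) ^ 2 * A * (G.card * (A * r))) -
        2 * Z * ((1 - η) * (G.card * (A * r))) + Z ^ 2) := by ring
    rw [e3] at hmain
    refine hmain.trans (h8.trans ?_)
    linarith
  -- the tiny values
  set Ym : ℕ := ⌈(X : ℝ) / L ^ C⌉₊ with hYm
  have hYm1 : 1 ≤ Ym := by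
    rw [hYm, Nat.one_le_ceil_iff]; positivity
  have hYmY : ∀ l j, Ym ≤ Y l j := by
    intro l j
    rw [hYm]
    exact Nat.ceil_le.2 (hY l j).1
  have hYmr : (X : ℝ) / L ^ C ≤ Ym := Nat.le_ceil _
  set AA := ((Ioc m (m + M)) ×ˢ (univ : Finset (Fin k))).image (fun z => z.1 + h z.2) with hAA
  have hAAc : (AA.card : ℝ) ≤ L ^ C * k := by
    have h7 : AA.card ≤ M * k := by
      refine card_image_le.trans (le_of_eq ?_)
      rw [card_product, Nat.card_Ioc, card_univ, Fintype.card_fin, Nat.add_sub_cancel_left]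
    have h8 : (AA.card : ℝ) ≤ M * k := by exact_mod_cast h7
    refine h8.trans ?_
    gcongr
  have htiny := hTI g d W (by omega) hW1 Y u AA w Ym hYm1 hYmY
  set Ti := bx.filter (fun t : Fin g → Fin d → ℤ => ∃ n ∈ AA, ∃ l, |u l n + ev W (t l) n| ≤ w) with hTi
  rw [← hP] at htiny
  have hoff : ∀ t ∈ bx, t ∉ Ti → ∑ n ∈ Ioc m (m + M), x n t * lg X d n ^ q = ∑ n ∈ G, x n t * lg X d n ^ q := by
    intro t ht htT
    symm
    apply sum_subset (filter_subset _ _)
    intro n hn hnG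
    have h7 : x n t = 0 := by
      simp only [hx]
      rw [if_neg]
      intro hall
      apply hnG
      refine mem_filter.2 ⟨hn, fun j p hp hdv => ?_⟩
      apply htT
      rw [hTi, mem_filter]
      unfold shf at hdv
      refine ⟨ht, n + h (finProdFinEquiv.symm j).2, ?_, (finProdFinEquiv.symm j).1, ?_⟩
      · rw [hAA, mem_image]
        exact ⟨(n, (finProdFinEquiv.symm j).2), by simp only [mem_product, mem_univ, and_true]; exact hn, rfl⟩
      · have h9 := hall (finProdFinEquiv.symm j).1 (finProdFinEquiv.symm j).2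
        simp only at h9
        have h10 : (p : ℤ) ∣ u (finProdFinEquiv.symm j).1 (n + h (finProdFinEquiv.symm j).2) +
            ev W (t (finProdFinEquiv.symm j).1) (n + h (finProdFinEquiv.symm j).2) := by
          apply dvd_add hdv
          unfold ev
          exact (dvd_WW hp).mul_right _
        have h11 := Int.natCast_dvd.1 h10
        have h12 := (Nat.prime_dvd_prime_iff_eq (mem_pz.1 hp).2 h9).1 h11
        rw [Int.abs_eq_natAbs, ← h12]
        exact_mod_cast (mem_pz.1 hp).1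
    rw [h7, zero_mul]
  have hpt : ∀ t ∈ bx, (∑ n ∈ Ioc m (m + M), x n t * lg X d n ^ q - Z) ^ 2 ≤
      (∑ n ∈ G, x n t * lg X d n ^ q - Z) ^ 2 + (if t ∈ Ti then 2 * 4 ^ q * L ^ (2 * q + 1) * Z ^ 2 else 0) := by
    intro t ht
    by_cases htT : t ∈ Ti
    · rw [if_pos htT]
      have h7 : ∑ n ∈ Ioc m (m + M), x n t * lg X d n ^ q ≤ M * (2 * L) ^ q := by
        have h8 : ∀ n ∈ Ioc m (m + M), x n t * lg X d n ^ q ≤ (2 * L) ^ q := by
          intro n hn
          obtain ⟨h9, h10⟩ := mem_Ioc.1 hn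
          obtain ⟨h11, _, h12⟩ := hlg n h9 h10
          have h13 := hx01 n t
          have h14 : 0 ≤ lg X d n := by linarith
          have h15 := pow_le_pow_left₀ h14 h12 q
          have h16 : 0 ≤ lg X d n ^ q := by positivity
          calc x n t * lg X d n ^ q ≤ 1 * lg X d n ^ q := mul_le_mul_of_nonneg_right h13.2 h16
            _ ≤ (2 * L) ^ q := by rw [one_mul]; exact h15
        have h9 := sum_le_sum h8
        rw [sum_const, nsmul_eq_mul, Nat.card_Ioc, Nat.add_sub_cancel_left] at h9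
        exact h9
      have h8 : 0 ≤ ∑ n ∈ Ioc m (m + M), x n t * lg X d n ^ q := by
        apply sum_nonneg
        intro n hn
        obtain ⟨h9, h10⟩ := mem_Ioc.1 hn
        obtain ⟨h11, _, h12⟩ := hlg n h9 h10
        have h14 : 0 ≤ lg X d n := by linarith
        exact mul_nonneg (hx01 n t).1 (by positivity)
      have h9 : ((M : ℝ) * (2 * L) ^ q) ^ 2 ≤ 4 ^ q * L ^ (2 * q + 1) * Z ^ 2 := aux4 _ _ _ _ q hM0 hL0.le hMZ hWsq
      have h10 : Z ^ 2 ≤ 4 ^ q * L ^ (2 * q + 1) * Z ^ 2 := by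
        have h11 : (1 : ℝ) ≤ 4 ^ q := one_le_pow₀ (by norm_num)
        have h12 := hLe (2 * q + 1)
        have h13 : 1 ≤ (4 : ℝ) ^ q * L ^ (2 * q + 1) := one_le_mul_of_one_le_of_one_le h11 h12
        exact le_mul_of_one_le_left (sq_nonneg Z) h13
      have h11 := pow_le_pow_left₀ h8 h7 2
      have h12 := sq_nonneg (∑ n ∈ G, x n t * lg X d n ^ q - Z)
      have h13 : 0 ≤ (∑ n ∈ Ioc m (m + M), x n t * lg X d n ^ q) * Z := mul_nonneg h8 hZ0
      have h14 : (∑ n ∈ Ioc m (m + M), x n t * lg X d n ^ q - Z) ^ 2 =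
          (∑ n ∈ Ioc m (m + M), x n t * lg X d n ^ q) ^ 2 -
            2 * ((∑ n ∈ Ioc m (m + M), x n t * lg X d n ^ q) * Z) + Z ^ 2 := by ring
      rw [h14]
      linarith
    · rw [if_neg htT, add_zero, hoff t ht htT]
  have hsum := sum_le_sum hpt
  rw [sum_add_distrib, sum_ite_mem, sum_const, nsmul_eq_mul] at hsum
  have hint : bx ∩ Ti = Ti := by
    rw [hTi]; exact inter_eq_right.2 (filter_subset _ _)
  rw [hint] at hsum
  have htin : (Ti.card : ℝ) * (2 * 4 ^ q * L ^ (2 * q + 1) * Z ^ 2) ≤ ε / 2 * Z ^ 2 * P := by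
    have hwL : (w : ℝ) ≤ L := ww_le X hL1
    have h7 : (AA.card * g * (2 * w + 1) / Ym : ℝ) * (2 * 4 ^ q * L ^ (2 * q + 1)) ≤ ε / 2 := by
      have h8 : (AA.card * g * (2 * w + 1) / Ym : ℝ) * (2 * 4 ^ q * L ^ (2 * q + 1)) ≤
          ((L ^ C * k) * g * (2 * L + L) / (X / L ^ C)) * (2 * 4 ^ q * L ^ (2 * q + 1)) := by
        gcongr
      refine h8.trans ?_
      have h9 : ((L ^ C * k) * g * (2 * L + L) / (X / L ^ C)) * (2 * 4 ^ q * L ^ (2 * q + 1)) =
          (6 * k * g * 4 ^ q * L ^ (2 * C + 2 * q + 2)) / X := by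
        rw [div_div_eq_mul_div, div_mul_eq_mul_div]
        congr 1
        rw [show 2 * C + 2 * q + 2 = C + C + 1 + (2 * q + 1) by ring, pow_add L (C + C + 1), pow_add L (C + C), pow_add L C,
          pow_one]
        ring
      rw [h9, div_le_iff₀ hX0]
      have h10 : √(X : ℝ) ≤ X := aux3 _ (by linarith)
      have h11 := a4.trans h10
      have h12 : 12 * k * g * 4 ^ q / ε * L ^ (2 * C + 2 * q + 2) =
          (12 * k * g * 4 ^ q * L ^ (2 * C + 2 * q + 2)) / ε := by ring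
      rw [h12, div_le_iff₀ hε] at h11
      linarith
    calc (Ti.card : ℝ) * (2 * 4 ^ q * L ^ (2 * q + 1) * Z ^ 2) ≤
          ((AA.card * g * (2 * w + 1) / Ym) * P) * (2 * 4 ^ q * L ^ (2 * q + 1) * Z ^ 2) :=
          mul_le_mul_of_nonneg_right htiny (by positivity)
      _ = ((AA.card * g * (2 * w + 1) / Ym : ℝ) * (2 * 4 ^ q * L ^ (2 * q + 1))) * (Z ^ 2 * P) := by ring
      _ ≤ ε / 2 * (Z ^ 2 * P) := mul_le_mul_of_nonneg_right h7 (by positivity)
      _ = _ := by ring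
  calc ∑ t ∈ bx, (psi X d (fun l n => u l n + ev W (t l) n) h m M - Z) ^ 2 =
        ∑ t ∈ bx, (∑ n ∈ Ioc m (m + M), x n t * lg X d n ^ q - Z) ^ 2 := by
        apply sum_congr rfl; intro t _; rw [hpsi t]
    _ ≤ _ := hsum
    _ ≤ ε / 2 * Z ^ 2 * P + ε / 2 * Z ^ 2 * P := add_le_add hmain2 htin
    _ = ε * Z ^ 2 * P := by ring

end Pool.Agent.Run7.h544.PT
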